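import Pool.Agent.H20.G.R_pool_sql_team_seeded_63374d34.N684.BK.Stm

/-!
# BK/TOP (for helper684, project BK): degree of the zero ideal and of the rational fibres

By helper415.
-/

set_option autoImplicit false

open MvPolynomial Filter
open scoped ENNReal

namespace Pool.Agent.N415.BK.TOP

open Pool.Agent.N684.BK

/-! ### Counting exponents -/

/-- an inequality of Bernoulli -/
lemma bern (y w n : ℕ) : (n + 1) * w * y ^ n + y ^ (n + 1) ≤ (y + w) ^ (n + 1) := by
  induction n with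
  | zero => simp [add_comm]
  | succ n ih =>
    have h1 : (y + w) * ((n + 1) * w * y ^ n + y ^ (n + 1)) ≤ (y + w) * (y + w) ^ (n + 1) :=
      Nat.mul_le_mul_left _ ih
    have h2 : (y + w) * ((n + 1) * w * y ^ n + y ^ (n + 1)) =
        ((n + 1 + 1) * w * y ^ (n + 1) + y ^ (n + 1 + 1)) + (n + 1) * w ^ 2 * y ^ n := by ring
    rw [h2, ← pow_succ'] at h1
    omega

/-- the telescoping sum -/
lemma tele (w K S n : ℕ) (A : ℕ) (hA : w * A ≤ K) :
    (n + 1) * w * ∑ a ∈ Finset.range (A + 1), (K - w * a + S) ^ n +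
      (K - w * A + S) ^ (n + 1) ≤ (K + S + w) ^ (n + 1) := by
  induction A with
  | zero => simpa using bern (K + S) w n
  | succ A ih =>
    have h1 := ih (by nlinarith)
    have h2 := bern (K - w * (A + 1) + S) w n
    have h3 : K - w * (A + 1) + S + w = K - w * A + S := by
      have : w * (A + 1) = w * A + w := by ring
      omega
    rw [h3] at h2
    rw [Finset.sum_range_succ, mul_add]
    omega

/-- the exponents of weighted degree at most `K` -/
def Ex (N : ℕ) (wt : Fin N → ℕ) (K : ℕ) : Finset (Fin N → ℕ) :=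
  (Fintype.piFinset fun _ => Finset.range (K + 1)).filter fun m => ∑ i, wt i * m i ≤ K

lemma le_of_sum {N : ℕ} {wt : Fin N → ℕ} (hwt : ∀ i, 1 ≤ wt i) {m : Fin N → ℕ} {K : ℕ}
    (h : ∑ i, wt i * m i ≤ K) (i : Fin N) : m i ≤ K := by
  have h1 : wt i * m i ≤ ∑ i, wt i * m i :=
    Finset.single_le_sum (f := fun i => wt i * m i) (fun i _ => Nat.zero_le _)
      (Finset.mem_univ i)
  have h2 : 1 * m i ≤ wt i * m i := Nat.mul_le_mul_right _ (hwt i)
  omega

lemma mem_Ex {N : ℕ} {wt : Fin N → ℕ} (hwt : ∀ i, 1 ≤ wt i) {m : Fin N → ℕ} {K : ℕ} :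
    m ∈ Ex N wt K ↔ ∑ i, wt i * m i ≤ K := by
  rw [Ex, Finset.mem_filter, Fintype.mem_piFinset]
  refine ⟨fun h => h.2, fun h => ⟨fun i => ?_, h⟩⟩
  rw [Finset.mem_range]
  have := le_of_sum hwt h i
  omega

lemma card_Ex (N : ℕ) : ∀ (wt : Fin N → ℕ), (∀ i, 1 ≤ wt i) → ∀ K : ℕ,
    N.factorial * (∏ i, wt i) * (Ex N wt K).card ≤ (K + ∑ i, wt i) ^ N := by
  classical
  induction N with
  | zero =>
    intro wt _ K
    have h1 : (Ex 0 wt K).card ≤ 1 := Finset.card_le_one_of_subsingleton _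
    simpa using h1
  | succ n ih =>
    intro wt hwt K
    set w := wt 0 with hw
    have hw1 : 1 ≤ w := hwt 0
    set wt' : Fin n → ℕ := fun i => wt i.succ with hwt'
    have h1 : (Ex (n + 1) wt K).card ≤
        ∑ a ∈ Finset.range (K / w + 1), (Ex n wt' (K - w * a)).card := by
      have hsub : Ex (n + 1) wt K ⊆ (Finset.range (K / w + 1)).biUnion fun a =>
          (Ex n wt' (K - w * a)).image fun m => (Fin.cons a m : Fin (n + 1) → ℕ) := by
        intro m hm
        rw [mem_Ex hwt, Fin.sum_univ_succ] at hm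
        rw [Finset.mem_biUnion]
        refine ⟨m 0, ?_, ?_⟩
        · rw [Finset.mem_range, Nat.lt_succ_iff, Nat.le_div_iff_mul_le hw1]
          have : m 0 * w = wt 0 * m 0 := by rw [hw]; ring
          omega
        · rw [Finset.mem_image]
          refine ⟨fun i => m i.succ, ?_, ?_⟩
          · rw [mem_Ex fun i => hwt i.succ]
            show ∑ i : Fin n, wt i.succ * m i.succ ≤ K - wt 0 * m 0
            omega
          · exact Fin.cons_self_tail m
      refine (Finset.card_le_card hsub).trans (Finset.card_biUnion_le.trans ?_)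
      exact Finset.sum_le_sum fun a _ => Finset.card_image_le
    have h2 : n.factorial * (∏ i, wt' i) * (Ex (n + 1) wt K).card ≤
        ∑ a ∈ Finset.range (K / w + 1), (K - w * a + ∑ i, wt' i) ^ n := by
      refine (Nat.mul_le_mul_left _ h1).trans ?_
      rw [Finset.mul_sum]
      exact Finset.sum_le_sum fun a _ => ih wt' (fun i => hwt i.succ) _
    have h3 := tele w K (∑ i, wt' i) n (K / w) (Nat.mul_div_le K w)
    rw [Fin.prod_univ_succ, Fin.sum_univ_succ]
    calc (n + 1).factorial * (wt 0 * ∏ i : Fin n, wt i.succ) * (Ex (n + 1) wt K).card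
        = (n + 1) * w * (n.factorial * (∏ i, wt' i) * (Ex (n + 1) wt K).card) := by
          rw [Nat.factorial_succ, hw, hwt']; ring
      _ ≤ (n + 1) * w * ∑ a ∈ Finset.range (K / w + 1), (K - w * a + ∑ i, wt' i) ^ n :=
          Nat.mul_le_mul_left _ h2
      _ ≤ (K + ∑ i, wt' i + w) ^ (n + 1) := (Nat.le_add_right _ _).trans h3
      _ = (K + (wt 0 + ∑ i : Fin n, wt i.succ)) ^ (n + 1) := by
          rw [hw, hwt']; congr 1; ring

/-! ### The zero ideal -/

section fld

variable {F : Type} [Field F]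

lemma dim_mv (N : ℕ) : Cardinal.toNat (Algebra.trdeg F (MvPolynomial (Fin N) F)) = N := by
  rw [MvPolynomial.trdeg_of_isDomain]
  simp

lemma finrank_supp {N : ℕ} (s : Set (Fin N →₀ ℕ)) :
    Module.finrank F (restrictSupport F s) = Nat.card s :=
  Module.finrank_eq_nat_card_basis (basisRestrictSupport F s)

lemma card_exp {N : ℕ} (wt : Fin N → ℕ) (hwt : ∀ i, 1 ≤ wt i) (K : ℕ) :
    Nat.card {m : Fin N →₀ ℕ | wd wt m ≤ K} ≤ (Ex N wt K).card := by
  let Φ : {m : Fin N →₀ ℕ | wd wt m ≤ K} → {x // x ∈ Ex N wt K} := fun m =>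
    ⟨⇑m.1, (mem_Ex hwt).2 m.2⟩
  have hΦ : Function.Injective Φ := by
    rintro ⟨m, hm⟩ ⟨m', hm'⟩ h
    have h1 : (⇑m : Fin N → ℕ) = ⇑m' := congrArg Subtype.val h
    exact Subtype.ext (DFunLike.coe_injective h1)
  have h1 := Nat.card_le_card_of_injective Φ hΦ
  rwa [Nat.card_eq_fintype_card (α := {x // x ∈ Ex N wt K}), Fintype.card_coe] at h1

lemma hil_bot {N : ℕ} (wt : Fin N → ℕ) (hwt : ∀ i, 1 ≤ wt i) (K : ℕ) :
    hil wt (⊥ : Ideal (MvPolynomial (Fin N) F)) K ≤ (Ex N wt K).card := by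
  have hfin : Module.Finite F (PW F wt K) := by
    have h1 : Finite {m : Fin N →₀ ℕ | wd wt m ≤ K} := by
      refine Finite.of_injective (fun m : {m : Fin N →₀ ℕ | wd wt m ≤ K} =>
        (⟨⇑m.1, (mem_Ex hwt).2 m.2⟩ : {x // x ∈ Ex N wt K})) ?_
      rintro ⟨m, hm⟩ ⟨m', hm'⟩ h
      have h1 : (⇑m : Fin N → ℕ) = ⇑m' := congrArg Subtype.val h
      exact Subtype.ext (DFunLike.coe_injective h1)
    exact Module.Finite.of_basis (basisRestrictSupport F {m : Fin N →₀ ℕ | wd wt m ≤ K})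
  refine (Submodule.finrank_map_le _ _).trans ?_
  have h2 : Module.finrank F (PW F wt K) = Nat.card {m : Fin N →₀ ℕ | wd wt m ≤ K} :=
    finrank_supp _
  rw [h2]
  exact card_exp wt hwt K

/-- TOP -/
theorem TOP : S_TOP := by
  intro F _ N wt hwt
  constructor
  · have e : (MvPolynomial (Fin N) F ⧸ (⊥ : Ideal (MvPolynomial (Fin N) F))) ≃ₐ[F]
        MvPolynomial (Fin N) F := AlgEquiv.quotientBot F _
    rw [dimQ, e.trdeg_eq, dim_mv]
  · set S : ℕ := ∑ i, wt i with hS
    set c : ℕ := N.factorial * ∏ i, wt i with hc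
    have hc0 : c ≠ 0 := by
      refine Nat.mul_ne_zero (Nat.factorial_ne_zero _) (Finset.prod_ne_zero_iff.2 fun i _ => ?_)
      have := hwt i
      omega
    have hcE : (c : ℝ≥0∞) ≠ 0 := by exact_mod_cast hc0
    have hcT : (c : ℝ≥0∞) ≠ ⊤ := ENNReal.natCast_ne_top c
    -- the limit
    have hlim : Tendsto (fun K : ℕ => (c : ℝ≥0∞)⁻¹ * (1 + (S : ℝ≥0∞) * ((K : ℕ) : ℝ≥0∞)⁻¹) ^ N)
        atTop (nhds (c : ℝ≥0∞)⁻¹) := by
      have h1 : Tendsto (fun K : ℕ => (S : ℝ≥0∞) * ((K : ℕ) : ℝ≥0∞)⁻¹) atTop (nhds 0) := by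
        have := ENNReal.Tendsto.const_mul (a := (S : ℝ≥0∞)) ENNReal.tendsto_inv_nat_nhds_zero
          (Or.inr (ENNReal.natCast_ne_top S))
        rwa [mul_zero] at this
      have h2 : Tendsto (fun K : ℕ => 1 + (S : ℝ≥0∞) * ((K : ℕ) : ℝ≥0∞)⁻¹) atTop (nhds 1) := by
        have := (tendsto_const_nhds (x := (1 : ℝ≥0∞))).add h1
        rwa [add_zero] at this
      have h3 := ENNReal.Tendsto.pow (n := N) h2
      rw [one_pow] at h3
      have h4 := ENNReal.Tendsto.const_mul (a := (c : ℝ≥0∞)⁻¹) h3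
        (Or.inl one_ne_zero)
      rwa [mul_one] at h4
    have hle : Filter.liminf (fun K : ℕ => (hil wt (⊥ : Ideal (MvPolynomial (Fin N) F)) K :
        ℝ≥0∞) / (K : ℝ≥0∞) ^ N) atTop ≤ (c : ℝ≥0∞)⁻¹ := by
      rw [← hlim.liminf_eq]
      refine Filter.liminf_le_liminf ?_
      filter_upwards [Filter.eventually_ge_atTop 1] with K hK
      have hK0 : (K : ℝ≥0∞) ≠ 0 := by
        rw [Nat.cast_ne_zero]
        omega
      have hKT : (K : ℝ≥0∞) ≠ ⊤ := ENNReal.natCast_ne_top K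
      rw [ENNReal.div_le_iff (pow_ne_zero _ hK0) (ENNReal.pow_ne_top hKT), mul_assoc, ← mul_pow,
        add_mul, one_mul, mul_assoc, ENNReal.inv_mul_cancel hK0 hKT, mul_one]
      rw [← ENNReal.mul_le_iff_le_inv hcE hcT]
      have h1 : c * hil wt (⊥ : Ideal (MvPolynomial (Fin N) F)) K ≤ (K + S) ^ N :=
        (Nat.mul_le_mul_left _ (hil_bot wt hwt K)).trans (card_Ex N wt hwt K)
      exact_mod_cast h1
    rw [Deg]
    calc (N.factorial : ℝ≥0∞) * Filter.liminf (fun K : ℕ =>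
          (hil wt (⊥ : Ideal (MvPolynomial (Fin N) F)) K : ℝ≥0∞) / (K : ℝ≥0∞) ^ N) atTop *
          ∏ i, (wt i : ℝ≥0∞)
        ≤ (N.factorial : ℝ≥0∞) * (c : ℝ≥0∞)⁻¹ * ∏ i, (wt i : ℝ≥0∞) := by gcongr
      _ = (c : ℝ≥0∞) * (c : ℝ≥0∞)⁻¹ := by
          have h1 : (c : ℝ≥0∞) = (N.factorial : ℝ≥0∞) * ∏ i, (wt i : ℝ≥0∞) := by
            rw [hc]; push_cast; rfl
          nth_rewrite 2 [h1]
          ring
      _ ≤ 1 := ENNReal.mul_inv_le_one _

/-! ### Rational fibres -/

/-- the substitution of the last variables -/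
noncomputable def sub (m k : ℕ) (y : Fin (m + k) → F) :
    MvPolynomial (Fin (m + k)) F →ₐ[F] MvPolynomial (Fin m) F :=
  aeval fun i => if h : (i : ℕ) < m then X ⟨i, h⟩ else C (y i)

lemma sub_X_lt {m k : ℕ} (y : Fin (m + k) → F) (i : Fin (m + k)) (h : (i : ℕ) < m) :
    sub m k y (X i) = X ⟨i, h⟩ := by
  rw [sub, aeval_X, dif_pos h]

lemma sub_X_ge {m k : ℕ} (y : Fin (m + k) → F) (i : Fin (m + k)) (h : ¬ (i : ℕ) < m) :
    sub m k y (X i) = C (y i) := by
  rw [sub, aeval_X, dif_neg h]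

lemma sub_surj (m k : ℕ) (y : Fin (m + k) → F) : Function.Surjective (sub m k y) := by
  intro p
  refine ⟨rename (Fin.castAdd k) p, ?_⟩
  have h1 : (sub m k y).comp (rename (Fin.castAdd k)) = AlgHom.id F _ := by
    apply MvPolynomial.algHom_ext
    intro i
    rw [AlgHom.comp_apply, rename_X, sub_X_lt y (Fin.castAdd k i) i.2]
    rfl
  exact congrArg (fun φ : MvPolynomial (Fin m) F →ₐ[F] MvPolynomial (Fin m) F => φ p) h1

/-- monomials -/
lemma sub_mon {m k : ℕ} (y : Fin (m + k) → F) (n : Fin (m + k) →₀ ℕ) :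
    ∃ c : F, sub m k y (monomial n 1) =
      monomial (Finsupp.equivFunOnFinite.symm fun i : Fin m => n (Fin.castAdd k i)) c := by
  refine ⟨∏ i : Fin k, y (Fin.natAdd m i) ^ n (Fin.natAdd m i), ?_⟩
  rw [sub, aeval_monomial, map_one, one_mul, Finsupp.prod_fintype _ _ (fun i => pow_zero _),
    Fin.prod_univ_add]
  have h1 : ∀ i : Fin m, (if h : ((Fin.castAdd k i : Fin (m + k)) : ℕ) < m then
      (X ⟨_, h⟩ : MvPolynomial (Fin m) F) else C (y (Fin.castAdd k i))) = X i := by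
    intro i
    exact dif_pos i.2
  have h2 : ∀ i : Fin k, (if h : ((Fin.natAdd m i : Fin (m + k)) : ℕ) < m then
      (X ⟨_, h⟩ : MvPolynomial (Fin m) F) else C (y (Fin.natAdd m i))) = C (y (Fin.natAdd m i)) := by
    intro i
    rw [dif_neg]
    rw [Fin.val_natAdd]
    omega
  simp only [h1, h2]
  rw [monomial_eq, Finsupp.prod_fintype _ _ (fun i => pow_zero _), map_prod, mul_comm]
  simp only [map_pow]
  rfl

lemma hil_fib {m k : ℕ} {wt : Fin (m + k) → ℕ} (hwt : ∀ i, 1 ≤ wt i) (y : Fin (m + k) → F)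
    (K : ℕ) : hil wt (RingHom.ker (sub m k y)) K ≤ (K + 1) ^ m := by
  set φ := sub m k y with hφ
  have hs := sub_surj m k y
  let e : (MvPolynomial (Fin (m + k)) F ⧸ RingHom.ker φ) ≃ₐ[F] MvPolynomial (Fin m) F :=
    Ideal.quotientKerAlgEquivOfSurjective hs
  have he : ∀ p, e (Ideal.Quotient.mkₐ F (RingHom.ker φ) p) = φ p := fun p => rfl
  set T : Set (Fin m →₀ ℕ) := {n | ∀ i, n i ≤ K} with hT
  let Φ : T → (Fin m → Fin (K + 1)) := fun n i => ⟨n.1 i, Nat.lt_succ_of_le (n.2 i)⟩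
  have hΦ : Function.Injective Φ := by
    rintro ⟨n, hn⟩ ⟨n', hn'⟩ h
    apply Subtype.ext
    apply Finsupp.ext
    intro i
    exact congrArg Fin.val (congrFun h i)
  have hfin : Finite T := Finite.of_injective Φ hΦ
  have hcard : Nat.card T ≤ (K + 1) ^ m := by
    have h1 := Nat.card_le_card_of_injective Φ hΦ
    rwa [Nat.card_fun, Nat.card_fin, Nat.card_fin] at h1
  have hfd : Module.Finite F (restrictSupport F T) :=
    Module.Finite.of_basis (basisRestrictSupport F T)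
  have h1 : (lev wt (RingHom.ker φ) K).map e.toLinearEquiv.toLinearMap ≤ restrictSupport F T := by
    rw [lev, PW, restrictSupport_eq_span, Submodule.map_span, Submodule.map_span,
      Submodule.span_le]
    rintro _ ⟨_, ⟨_, ⟨n, hn, rfl⟩, rfl⟩, rfl⟩
    show e (Ideal.Quotient.mkₐ F (RingHom.ker φ) (monomial n 1)) ∈ restrictSupport F T
    rw [he]
    obtain ⟨c, hc⟩ := sub_mon y n
    rw [hφ, hc, monomial_mem_restrictSupport]
    left
    intro i
    have h2 := le_of_sum hwt (m := n) (K := K) hn (Fin.castAdd k i)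
    exact h2
  have h2 := Submodule.finrank_mono h1
  have h3 : Module.finrank F ((lev wt (RingHom.ker φ) K).map e.toLinearEquiv.toLinearMap) =
      Module.finrank F (lev wt (RingHom.ker φ) K) :=
    LinearEquiv.finrank_map_eq e.toLinearEquiv _
  rw [h3, finrank_supp] at h2
  exact h2.trans hcard

/-- FIB -/
theorem FIB : S_FIB := by
  intro F _ m k wt hwt y
  have hs := sub_surj m k y
  let e : (MvPolynomial (Fin (m + k)) F ⧸ RingHom.ker (sub m k y)) ≃ₐ[F]
    MvPolynomial (Fin m) F := Ideal.quotientKerAlgEquivOfSurjective hs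
  refine ⟨RingHom.ker (sub m k y), RingHom.ker_isPrime _, ?_, ?_, ?_⟩
  · rw [dimQ, e.trdeg_eq, dim_mv]
  · rw [Deg]
    refine mul_le_mul' le_rfl ?_
    refine Filter.liminf_le_of_frequently_le' (Filter.Eventually.frequently ?_)
    filter_upwards [Filter.eventually_ge_atTop 1] with K hK
    have hK0 : (K : ℝ≥0∞) ^ m ≠ 0 := by
      apply pow_ne_zero
      rw [Nat.cast_ne_zero]
      omega
    have hKt : (K : ℝ≥0∞) ^ m ≠ ⊤ := ENNReal.pow_ne_top (ENNReal.natCast_ne_top K)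
    rw [ENNReal.div_le_iff hK0 hKt, ← mul_pow]
    have h1 : hil wt (RingHom.ker (sub m k y)) K ≤ (2 * K) ^ m :=
      (hil_fib hwt y K).trans (Nat.pow_le_pow_left (by omega) m)
    exact_mod_cast h1
  · intro Q hQ p hp
    have h1 : (Ideal.Quotient.mkₐ F Q) =
        ((Ideal.Quotient.mkₐ F Q).comp (rename (Fin.castAdd k))).comp (sub m k y) := by
      apply MvPolynomial.algHom_ext
      intro i
      rw [AlgHom.comp_apply]
      by_cases h : (i : ℕ) < m
      · rw [sub_X_lt y i h, AlgHom.comp_apply, rename_X]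
        rfl
      · rw [sub_X_ge y i h, AlgHom.comp_apply, rename_C]
        have h2 := hQ i (not_lt.1 h)
        exact (Ideal.Quotient.eq).2 h2
    have h2 : Ideal.Quotient.mkₐ F Q p = 0 := by
      rw [h1, AlgHom.comp_apply, RingHom.mem_ker.1 hp, map_zero]
    exact Ideal.Quotient.eq_zero_iff_mem.1 h2

end fld

end Pool.Agent.N415.BK.TOP
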